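import Pool.Agent.W295.NL.Stm

/-! Project NL, part OB: odd step, bipartite type. -/

set_option autoImplicit false

namespace Pool.Agent.W347.NL.OB

open Pool.Agent.W295.NL

variable {q : ℕ}

def w (q : ℕ) (a : Fin 3) : ZMod q := if a = 2 then -2 else 1

theorem w_sum (i j k : Fin 3) (h1 : i ≠ j) (h2 : k ≠ i) (h3 : k ≠ j) :
    w q i + w q j + w q k = 0 := by
  fin_cases i <;> fin_cases j <;> fin_cases k <;> first
    | exact absurd rfl h1
    | exact absurd rfl h2
    | exact absurd rfl h3
    | (simp [w]; try ring)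

theorem g_sum (i j : Fin 3) (h1 : i ≠ j) (a b c : ZMod q) :
    (if (0 : Fin 3) = i then a else if (0 : Fin 3) = j then b else c) +
    (if (1 : Fin 3) = i then a else if (1 : Fin 3) = j then b else c) +
    (if (2 : Fin 3) = i then a else if (2 : Fin 3) = j then b else c) = a + b + c := by
  fin_cases i <;> fin_cases j <;> first
    | exact absurd rfl h1
    | (simp; try ring)

theorem w_cancel (hq : Odd q) (a : Fin 3) (k : ℕ) (h : (k : ZMod q) * w q a = 0) : q ∣ k := by
  unfold w at h
  split_ifs at h with h2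
  · have h3 : ((2 * k : ℕ) : ZMod q) = 0 := by
      push_cast
      linear_combination -h
    rw [ZMod.natCast_eq_zero_iff] at h3
    exact (Nat.Coprime.dvd_mul_left (Nat.Coprime.symm (Nat.coprime_two_left.mpr hq))).mp h3
  · rw [mul_one] at h
    rwa [ZMod.natCast_eq_zero_iff] at h

theorem main : Pool.Agent.W295.NL.S_OB := by
  rintro Q L n q hn hq ⟨X, κ, hC, hB⟩ f
  let A : ℕ → ZMod q := fun t => ((t / (2 * n) : ℕ) : ZMod q) * w q (κ t)
  let F : ℕ → ZMod q := fun t => f (X 0 t) (X 1 t)
  let B : ℕ → ZMod q := fun t => -F t - A t - A (t + 1)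
  let S : Fin 3 → ℕ → ZMod q := fun a t =>
    if a = κ t then A t else if a = κ (t + 1) then A (t + 1) else B t
  let X' : Fin 3 → ℕ → Q × ZMod q := fun a t => (X a t, if a = 2 then -S 2 t else S a t)
  have hA : ∀ t, A (t + 2 * n) = A t + w q (κ t) := by
    intro t
    show (((t + 2 * n) / (2 * n) : ℕ) : ZMod q) * w q (κ (t + 2 * n)) =
      ((t / (2 * n) : ℕ) : ZMod q) * w q (κ t) + w q (κ t)
    rw [Nat.add_div_right _ (by omega), hC.kper]
    push_cast
    ring
  have hF : ∀ t, F (t + 2 * n) = F t := by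
    intro t
    show f (X 0 (t + 2 * n)) (X 1 (t + 2 * n)) = f (X 0 t) (X 1 t)
    rw [hC.per, hC.per]
  have hA1 : ∀ t, A (t + 2 * n + 1) = A (t + 1) + w q (κ (t + 1)) := by
    intro t
    rw [← hA, show t + 2 * n + 1 = t + 1 + 2 * n by ring]
  have hB1 : ∀ t, B (t + 2 * n) = B t - w q (κ t) - w q (κ (t + 1)) := by
    intro t
    show -F (t + 2 * n) - A (t + 2 * n) - A (t + 2 * n + 1) =
      -F t - A t - A (t + 1) - w q (κ t) - w q (κ (t + 1))
    rw [hF, hA, hA1]
    ring
  have hκ1 : ∀ t, κ (t + 2 * n + 1) = κ (t + 1) := by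
    intro t
    rw [show t + 2 * n + 1 = t + 1 + 2 * n by ring, hC.kper]
  have hS : ∀ a t, S a (t + 2 * n) = S a t + w q a := by
    intro a t
    show (if a = κ (t + 2 * n) then A (t + 2 * n) else if a = κ (t + 2 * n + 1) then
      A (t + 2 * n + 1) else B (t + 2 * n)) =
      (if a = κ t then A t else if a = κ (t + 1) then A (t + 1) else B t) + w q a
    rw [hC.kper, hκ1, hA, hA1, hB1]
    split_ifs with h1 h2
    · rw [h1]
    · rw [h2]
    · have := w_sum (q := q) (κ t) (κ (t + 1)) a (hC.kne t) h1 h2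
      linear_combination -this
  have hSk : ∀ a t k, S a (t + 2 * n * k) = S a t + (k : ZMod q) * w q a := by
    intro a t k
    induction k with
    | zero => simp
    | succ k ih =>
      rw [show t + 2 * n * (k + 1) = t + 2 * n * k + 2 * n by ring, hS, ih]
      push_cast
      ring
  have hXk : ∀ a t k, X a (t + 2 * n * k) = X a t := by
    intro a t k
    induction k with
    | zero => simp
    | succ k ih =>
      rw [show t + 2 * n * (k + 1) = t + 2 * n * k + 2 * n by ring, hC.per, ih]
  have hκk : ∀ t k, κ (t + 2 * n * k) = κ t := by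
    intro t k
    induction k with
    | zero => simp
    | succ k ih =>
      rw [show t + 2 * n * (k + 1) = t + 2 * n * k + 2 * n by ring, hC.kper, ih]
  have hSq : ∀ a t, S a (t + 2 * (n * q)) = S a t := by
    intro a t
    rw [show t + 2 * (n * q) = t + 2 * n * q by ring, hSk, ZMod.natCast_self, zero_mul, add_zero]
  refine ⟨X', κ, ⟨?_, ?_, ?_, hC.kne, ?_⟩, ?_⟩
  · intro a t
    show (X a (t + 2 * (n * q)), if a = 2 then -S 2 (t + 2 * (n * q)) else S a (t + 2 * (n * q))) =
      (X a t, if a = 2 then -S 2 t else S a t)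
    rw [hSq, hSq, show t + 2 * (n * q) = t + 2 * n * q by ring, hXk]
  · intro t
    rw [show t + 2 * (n * q) = t + 2 * n * q by ring, hκk]
  · intro t
    show ((X 2 t, if (2 : Fin 3) = 2 then -S 2 t else S 2 t) : Q × ZMod q) =
      (L (X 0 t) (X 1 t), (if (0 : Fin 3) = 2 then -S 2 t else S 0 t) +
        (if (1 : Fin 3) = 2 then -S 2 t else S 1 t) + F t)
    rw [hC.sym, if_pos rfl, if_neg (by decide), if_neg (by decide)]
    have h := g_sum (q := q) (κ t) (κ (t + 1)) (hC.kne t) (A t) (A (t + 1)) (B t)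
    have h' : S 0 t + S 1 t + S 2 t = A t + A (t + 1) + (-F t - A t - A (t + 1)) := h
    have h'' : -S 2 t = S 0 t + S 1 t + F t := by linear_combination -h'
    rw [h'']
  · intro t
    have h1 : S (κ (t + 1)) (t + 1) = A (t + 1) := if_pos rfl
    have h2 : S (κ (t + 1)) t = A (t + 1) := by
      show (if κ (t + 1) = κ t then A t else if κ (t + 1) = κ (t + 1) then A (t + 1) else B t) =
        A (t + 1)
      rw [if_neg (hC.kne t).symm, if_pos rfl]
    show (X (κ (t + 1)) (t + 1), if κ (t + 1) = 2 then -S 2 (t + 1) else S (κ (t + 1)) (t + 1)) =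
      (X (κ (t + 1)) t, if κ (t + 1) = 2 then -S 2 t else S (κ (t + 1)) t)
    rw [hC.edge]
    by_cases h3 : κ (t + 1) = 2
    · rw [if_pos h3, if_pos h3]
      rw [h3] at h1 h2
      rw [h1, h2]
    · rw [if_neg h3, if_neg h3, h1, h2]
  · have key : ∀ a t t', t ≤ t' → X' a t = X' a t' → t ≡ t' [MOD 2] → t ≡ t' [MOD 2 * (n * q)] := by
      intro a t t' hle he hmod
      have e1 : X a t = X a t' := congrArg Prod.fst he
      have e2 : (if a = 2 then -S 2 t else S a t) = if a = 2 then -S 2 t' else S a t' :=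
        congrArg Prod.snd he
      have e3 : S a t = S a t' := by
        by_cases h3 : a = 2
        · rw [if_pos h3, if_pos h3] at e2
          rw [h3]
          exact neg_injective e2
        · rwa [if_neg h3, if_neg h3] at e2
      have e4 := hB a t t' e1 hmod
      obtain ⟨k, hk⟩ := (Nat.modEq_iff_dvd' hle).mp e4
      have hk' : t' = t + 2 * n * k := by omega
      rw [hk', hSk] at e3
      have e5 : (k : ZMod q) * w q a = 0 := by linear_combination -e3
      obtain ⟨j, hj⟩ := w_cancel hq a k e5
      rw [Nat.modEq_iff_dvd' hle, hk, hj]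
      exact ⟨j, by ring⟩
    intro a t t' he hmod
    rcases le_total t t' with h | h
    · exact key a t t' h he hmod
    · exact (key a t' t h he.symm hmod.symm).symm

end Pool.Agent.W347.NL.OB
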